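import Pool.Agent.Helper95.WS.St

/-!
# Project WS, module W1: monic polynomials
-/

set_option autoImplicit false

namespace Pool.Agent.Helper86.WS

open Polynomial
open Pool.Agent.Helper95.WS
open scoped Classical

noncomputable section

theorem mem_Mn {F : Type} [Field F] [Fintype F] (n : ℕ) (h : F[X]) :
    h ∈ Mn F n ↔ h.Monic ∧ h.natDegree = n := by
  unfold Mn
  simp only [Finset.mem_image, Finset.mem_univ, true_and]
  constructor
  · rintro ⟨a, rfl⟩
    have hd := degree_sum_fin_lt a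
    refine ⟨monic_X_pow_add hd, ?_⟩
    rw [natDegree_add_eq_left_of_degree_lt, natDegree_X_pow]
    rw [degree_X_pow]
    exact hd
  · rintro ⟨hm, rfl⟩
    refine ⟨fun i => h.coeff i, ?_⟩
    conv_rhs => rw [hm.as_sum]
    rw [Finset.sum_range]

theorem lam_mul {F : Type} [Field F] (ψ : MulChar F ℂ) (f h₁ h₂ : F[X]) (m1 : h₁.Monic)
    (m2 : h₂.Monic) : lam ψ f (h₁ * h₂) = lam ψ f h₁ * lam ψ f h₂ := by
  unfold lam
  rw [m1.natDegree_mul m2, resultant_mul_left h₁ h₂ f _ le_rfl, map_mul]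

theorem lam_one {F : Type} [Field F] (ψ : MulChar F ℂ) (f : F[X]) : lam ψ f 1 = 1 := by
  unfold lam
  rw [natDegree_one, resultant_one_left]
  simp

theorem lam_pow {F : Type} [Field F] (ψ : MulChar F ℂ) (f P : F[X]) (mP : P.Monic) (j : ℕ) :
    lam ψ f (P ^ j) = lam ψ f P ^ j := by
  induction j with
  | zero => rw [pow_zero, pow_zero, lam_one]
  | succ j ih => rw [pow_succ, lam_mul ψ f _ _ (mP.pow j) mP, ih, pow_succ]

theorem hW1 : StW1 := by
  intro F _ _ ψ f
  refine ⟨mem_Mn, lam_mul ψ f, ?_, ?_, ?_⟩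
  · unfold AA
    have e : Mn F 0 = {1} := by
      ext h
      rw [mem_Mn, Finset.mem_singleton]
      constructor
      · rintro ⟨h1, h2⟩
        exact h1.natDegree_eq_zero.1 h2
      · rintro rfl
        exact ⟨monic_one, natDegree_one⟩
    rw [e, Finset.sum_singleton, lam_one]
  · intro n e j P hP hn
    rw [mem_Mn] at hP
    obtain ⟨mP, dP⟩ := hP
    unfold AA
    rw [Finset.mul_sum]
    symm
    refine Finset.sum_bij (fun h _ => P ^ j * h) ?_ ?_ ?_ ?_
    · intro h hh
      rw [mem_Mn] at hh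
      rw [Finset.mem_filter, mem_Mn]
      refine ⟨⟨(mP.pow j).mul hh.1, ?_⟩, Dvd.intro _ rfl⟩
      rw [(mP.pow j).natDegree_mul hh.1, mP.natDegree_pow, dP, hh.2]
      omega
    · intro a _ b _ hab
      exact mul_left_cancel₀ (mP.pow j).ne_zero hab
    · intro h hh
      rw [Finset.mem_filter, mem_Mn] at hh
      obtain ⟨⟨h1, h2⟩, ⟨k, rfl⟩⟩ := hh
      have mk : k.Monic := (mP.pow j).of_mul_monic_left h1
      refine ⟨k, ?_, rfl⟩
      rw [mem_Mn]
      refine ⟨mk, ?_⟩
      rw [(mP.pow j).natDegree_mul mk, mP.natDegree_pow, dP] at h2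
      omega
    · intro h hh
      rw [mem_Mn] at hh
      rw [lam_mul ψ f _ _ (mP.pow j) hh.1, lam_pow ψ f P mP]
  · intro n e j P hP hn
    rw [mem_Mn] at hP
    obtain ⟨mP, dP⟩ := hP
    rw [Finset.filter_eq_empty_iff]
    intro h hh hd
    rw [mem_Mn] at hh
    have := natDegree_le_of_dvd hd hh.1.ne_zero
    rw [mP.natDegree_pow, dP, hh.2] at this
    omega

end

end Pool.Agent.Helper86.WS
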